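import Mathlib
import Pool.Agent.Helper96.Josephson.Rot

set_option autoImplicit false

namespace Pool.Agent.Results.MP_be172b_an.PhaseLock

open Filter Topology

/-- `φ` solves `dφ/dτ = (1/ω) (-sin φ + B + A cos τ)` on the whole real line. -/
def IsSolution (ω B A : ℝ) (φ : ℝ → ℝ) : Prop :=
  ∀ τ : ℝ, HasDerivAt φ ((1 / ω) * (-Real.sin (φ τ) + B + A * Real.cos τ)) τ

/-- `ρ` is the rotation number of the equation with parameters `ω, B, A`: there are solutions on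
the real line, and `φ(τ)/τ` tends to `ρ` as `τ → +∞` for every one of them. -/
def IsRotationNumber (ω B A ρ : ℝ) : Prop :=
  (∃ φ : ℝ → ℝ, IsSolution ω B A φ) ∧
    ∀ φ : ℝ → ℝ, IsSolution ω B A φ → Tendsto (fun τ : ℝ => φ τ / τ) atTop (𝓝 ρ)

/-- The phase-lock area `L_m`: the pairs `(B, A)` whose rotation number is `m`. -/
def phaseLockArea (ω : ℝ) (m : ℤ) : Set (ℝ × ℝ) :=
  {p : ℝ × ℝ | IsRotationNumber ω p.1 p.2 (m : ℝ)}

/-- The line `Λ_r`: the pairs `(B, A)` with `B = ω r`. -/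
def axisLine (ω : ℝ) (r : ℤ) : Set (ℝ × ℝ) :=
  {p : ℝ × ℝ | p.1 = ω * (r : ℝ)}

/-- For every `ω > 0` and every integer `r ≥ 1`: for every `A` the rotation number at `(ω r, A)`
exists and is less than `r + 1`, and the phase-lock area `L_{r+1}` does not meet the line `Λ_r`. -/
theorem result (ω : ℝ) (hω : 0 < ω) (r : ℤ) (hr : 1 ≤ r) :
    (∀ A : ℝ, ∃ ρ : ℝ, IsRotationNumber ω (ω * (r : ℝ)) A ρ ∧ ρ < (r : ℝ) + 1) ∧
      phaseLockArea ω (r + 1) ∩ axisLine ω r = ∅ := by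
  have key : ∀ A : ℝ, ∃ ρ : ℝ, IsRotationNumber ω (ω * (r : ℝ)) A ρ ∧ ρ < (r : ℝ) + 1 := by
    intro A
    obtain ⟨n, rfl⟩ : ∃ n : ℕ, r = (n : ℤ) := ⟨r.toNat, (Int.toNat_of_nonneg (by omega)).symm⟩
    have hn : 1 ≤ n := by exact_mod_cast hr
    have hiff : ∀ φ : ℝ → ℝ, IsSolution ω (ω * ((n : ℤ) : ℝ)) A φ ↔
        Pool.Agent.Helper96.Josephson.Sol (n : ℝ) (1 / ω) (A / ω) φ := by
      intro φ
      have e : ∀ τ : ℝ, (1 / ω) * (-Real.sin (φ τ) + ω * ((n : ℤ) : ℝ) + A * Real.cos τ)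
          = (n : ℝ) + A / ω * Real.cos τ - 1 / ω * Real.sin (φ τ) := by
        intro τ
        push_cast
        field_simp
        ring
      unfold IsSolution Pool.Agent.Helper96.Josephson.Sol
      exact forall_congr' fun τ => by rw [e τ]
    obtain ⟨ρ, hρ, hrot⟩ := Pool.Agent.Helper96.Josephson.exists_rot_lt hn
      (a := 1 / ω) (by positivity) (A / ω)
    refine ⟨ρ, ⟨?_, fun φ hφ => hrot.tendsto ((hiff φ).mp hφ)⟩, ?_⟩
    · obtain ⟨φ, -, hφ⟩ := Pool.Agent.Helper96.Josephson.exists_sol (n : ℝ) (1 / ω) (A / ω) 0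
      exact ⟨φ, (hiff φ).mpr hφ⟩
    · push_cast
      exact hρ
  refine ⟨key, Set.eq_empty_iff_forall_notMem.mpr ?_⟩
  rintro ⟨B, A⟩ ⟨h1, h2⟩
  have h3 : B = ω * (r : ℝ) := h2
  have h4 : IsRotationNumber ω B A (((r + 1 : ℤ)) : ℝ) := h1
  rw [h3] at h4
  obtain ⟨ρ, hρ, hlt⟩ := key A
  obtain ⟨φ, hφ⟩ := h4.1
  have h5 := tendsto_nhds_unique (h4.2 φ hφ) (hρ.2 φ hφ)
  push_cast at h5
  linarith

end Pool.Agent.Results.MP_be172b_an.PhaseLock
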